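import Mathlib

set_option autoImplicit false

namespace Pool.Agent.KS6_39.HM

open Quaternion

/-- integral quaternion with given coordinates -/
def qmk (a b c d : ℤ) : ℍ[ℤ] := ⟨a, b, c, d⟩

@[simp] theorem qmk_re (a b c d : ℤ) : (qmk a b c d).re = a := rfl
@[simp] theorem qmk_imI (a b c d : ℤ) : (qmk a b c d).imI = b := rfl
@[simp] theorem qmk_imJ (a b c d : ℤ) : (qmk a b c d).imJ = c := rfl
@[simp] theorem qmk_imK (a b c d : ℤ) : (qmk a b c d).imK = d := rfl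

/-- The imaginary coordinates are even. -/
def Ev (x : ℍ[ℤ]) : Prop := (2 : ℤ) ∣ x.imI ∧ (2 : ℤ) ∣ x.imJ ∧ (2 : ℤ) ∣ x.imK

theorem Ev.mul {x y : ℍ[ℤ]} (hx : Ev x) (hy : Ev y) : Ev (x * y) := by
  obtain ⟨⟨a, ha⟩, ⟨b, hb⟩, ⟨c, hc⟩⟩ := hx
  obtain ⟨⟨d, hd⟩, ⟨e, he⟩, ⟨f, hf⟩⟩ := hy
  refine ⟨?_, ?_, ?_⟩
  · rw [imI_mul, ha, hb, hc, hd, he, hf]
    exact ⟨x.re * d + a * y.re + b * (2 * f) - c * (2 * e), by ring⟩
  · rw [imJ_mul, ha, hb, hc, hd, he, hf]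
    exact ⟨x.re * e - a * (2 * f) + b * y.re + c * (2 * d), by ring⟩
  · rw [imK_mul, ha, hb, hc, hd, he, hf]
    exact ⟨x.re * f + a * (2 * e) - b * (2 * d) + c * y.re, by ring⟩

/-- Integral quaternions whose norm divides a power of `65`, with even imaginary coordinates. -/
def PM : Submonoid ℍ[ℤ] where
  carrier := {x | (∃ k : ℕ, normSq x ∣ 65 ^ k) ∧ Ev x}
  one_mem' := ⟨⟨0, by simp⟩, by unfold Ev; simp⟩
  mul_mem' := by
    rintro x y ⟨⟨k, hk⟩, hx⟩ ⟨⟨l, hl⟩, hy⟩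
    refine ⟨⟨k + l, ?_⟩, hx.mul hy⟩
    rw [map_mul, pow_add]
    exact mul_dvd_mul hk hl

theorem mem_PM {x : ℍ[ℤ]} : x ∈ PM ↔ (∃ k : ℕ, normSq x ∣ 65 ^ k) ∧ Ev x := Iff.rfl

theorem PM_normSq_ne_zero {x : ℍ[ℤ]} (hx : x ∈ PM) : normSq x ≠ 0 := by
  obtain ⟨⟨k, hk⟩, -⟩ := hx
  intro h
  rw [h, zero_dvd_iff] at hk
  exact absurd hk (by positivity)

theorem PM_of_dvd {x y : ℍ[ℤ]} (hx : x ∈ PM) (h : normSq y ∣ normSq x) (hy : Ev y) :
    y ∈ PM := by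
  obtain ⟨⟨k, hk⟩, -⟩ := hx
  exact ⟨⟨k, h.trans hk⟩, hy⟩

theorem PM_star {x : ℍ[ℤ]} (hx : x ∈ PM) : star x ∈ PM := by
  refine PM_of_dvd hx (by rw [normSq_star]) ?_
  obtain ⟨-, h1, h2, h3⟩ := hx
  exact ⟨by rw [imI_star]; exact (dvd_neg).mpr h1, by rw [imJ_star]; exact (dvd_neg).mpr h2,
    by rw [imK_star]; exact (dvd_neg).mpr h3⟩

theorem PM_odd {x : ℍ[ℤ]} (hx : x ∈ PM) : ¬ (2 : ℤ) ∣ normSq x := by
  intro h
  obtain ⟨⟨k, hk⟩, -⟩ := hx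
  have h2 : (2 : ℤ) ∣ 65 ^ k := h.trans hk
  have hp : Prime (2 : ℤ) := Int.prime_two
  have := hp.dvd_of_dvd_pow h2
  norm_num at this

/-- The real part is odd. -/
theorem re_odd {x : ℍ[ℤ]} (hx : x ∈ PM) : ¬ (2 : ℤ) ∣ x.re := by
  rintro ⟨t, ht⟩
  apply PM_odd hx
  obtain ⟨-, ⟨a, ha⟩, ⟨b, hb⟩, ⟨c, hc⟩⟩ := hx
  rw [normSq_def', ht, ha, hb, hc]
  exact ⟨2 * (t ^ 2 + a ^ 2 + b ^ 2 + c ^ 2), by ring⟩

theorem re_ne_zero {x : ℍ[ℤ]} (hx : x ∈ PM) : x.re ≠ 0 := by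
  intro h
  apply re_odd hx
  rw [h]
  exact dvd_zero _

theorem normSq_nonneg' (x : ℍ[ℤ]) : 0 ≤ normSq x := by
  rw [normSq_def']; positivity

theorem PM_ne_zero {x : ℍ[ℤ]} (hx : x ∈ PM) : x ≠ 0 := by
  intro h
  exact PM_normSq_ne_zero hx (by rw [h, map_zero])

theorem smul_cancel {m : ℤ} (hm : m ≠ 0) {x y : ℍ[ℤ]} (h : m • x = m • y) : x = y := by
  have h1 := congrArg (·.re) h
  have h2 := congrArg (·.imI) h
  have h3 := congrArg (·.imJ) h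
  have h4 := congrArg (·.imK) h
  simp only [re_smul, imI_smul, imJ_smul, imK_smul, smul_eq_mul] at h1 h2 h3 h4
  ext
  · exact mul_left_cancel₀ hm h1
  · exact mul_left_cancel₀ hm h2
  · exact mul_left_cancel₀ hm h3
  · exact mul_left_cancel₀ hm h4

/-- Proportionality. -/
def relC : Con PM where
  r x y := ∃ m n : ℤ, m ≠ 0 ∧ n ≠ 0 ∧ m • (x : ℍ[ℤ]) = n • (y : ℍ[ℤ])
  iseqv := {
    refl := fun x => ⟨1, 1, one_ne_zero, one_ne_zero, rfl⟩
    symm := by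
      rintro x y ⟨m, n, hm, hn, h⟩
      exact ⟨n, m, hn, hm, h.symm⟩
    trans := by
      rintro x y z ⟨m, n, hm, hn, h⟩ ⟨m', n', hm', hn', h'⟩
      refine ⟨m' * m, n * n', mul_ne_zero hm' hm, mul_ne_zero hn hn', ?_⟩
      rw [mul_smul, h, mul_smul, ← h', smul_comm] }
  mul' := by
    rintro w x y z ⟨m, n, hm, hn, h⟩ ⟨m', n', hm', hn', h'⟩
    refine ⟨m * m', n * n', mul_ne_zero hm hm', mul_ne_zero hn hn', ?_⟩
    rw [Submonoid.coe_mul, Submonoid.coe_mul, ← smul_mul_smul_comm, h, h', smul_mul_smul_comm]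

theorem relC_iff {x y : PM} : relC x y ↔ ∃ m n : ℤ, m ≠ 0 ∧ n ≠ 0 ∧
    m • (x : ℍ[ℤ]) = n • (y : ℍ[ℤ]) := Iff.rfl

/-- The group: quaternions of norm `5^a 13^b` with even imaginary coordinates modulo scalars. -/
def QG : Type := relC.Quotient

instance : Monoid QG := inferInstanceAs (Monoid relC.Quotient)

/-- class of an integral quaternion -/
def cl (x : PM) : QG := (x : relC.Quotient)

theorem cl_mul (x y : PM) : cl (x * y) = cl x * cl y := rfl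
theorem cl_one : cl 1 = 1 := rfl

theorem cl_eq_iff {x y : PM} : cl x = cl y ↔ ∃ m n : ℤ, m ≠ 0 ∧ n ≠ 0 ∧
    m • (x : ℍ[ℤ]) = n • (y : ℍ[ℤ]) := by
  exact (Con.eq relC).trans relC_iff

theorem cl_surj (g : QG) : ∃ x : PM, cl x = g := by
  obtain ⟨x, hx⟩ := Quotient.exists_rep g
  exact ⟨x, hx⟩

/-- conjugate element -/
def starP (x : PM) : PM := ⟨star (x : ℍ[ℤ]), PM_star x.2⟩

instance : Inv QG := ⟨fun g => Quotient.liftOn g (fun x => cl (starP x)) (by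
  intro x y h
  rw [cl_eq_iff]
  obtain ⟨m, n, hm, hn, h1⟩ := h
  refine ⟨m, n, hm, hn, ?_⟩
  have e1 := congrArg (·.re) h1
  have e2 := congrArg (·.imI) h1
  have e3 := congrArg (·.imJ) h1
  have e4 := congrArg (·.imK) h1
  simp only [re_smul, imI_smul, imJ_smul, imK_smul, smul_eq_mul] at e1 e2 e3 e4
  ext
  · simp only [starP, re_smul, re_star, smul_eq_mul]; exact e1
  · simp only [starP, imI_smul, imI_star, smul_eq_mul, mul_neg]; rw [e2]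
  · simp only [starP, imJ_smul, imJ_star, smul_eq_mul, mul_neg]; rw [e3]
  · simp only [starP, imK_smul, imK_star, smul_eq_mul, mul_neg]; rw [e4])⟩

theorem cl_inv (x : PM) : (cl x)⁻¹ = cl (starP x) := rfl

instance : Group QG :=
  { (inferInstance : Monoid QG), (inferInstance : Inv QG) with
    inv_mul_cancel := by
      intro g
      obtain ⟨x, rfl⟩ := cl_surj g
      rw [cl_inv, ← cl_mul, ← cl_one, cl_eq_iff]
      refine ⟨1, normSq (x : ℍ[ℤ]), one_ne_zero, PM_normSq_ne_zero x.2, ?_⟩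
      rw [one_smul, Submonoid.coe_mul, starP]
      simp only [Submonoid.coe_one]
      rw [star_mul_self]
      ext <;> simp }

/-- valuation of the norm -/
noncomputable def val (l : ℕ) (x : ℍ[ℤ]) : ℕ := padicValInt l (normSq x)

theorem val_mul {l : ℕ} [Fact l.Prime] {x y : ℍ[ℤ]} (hx : x ∈ PM) (hy : y ∈ PM) :
    val l (x * y) = val l x + val l y := by
  unfold val
  rw [map_mul, padicValInt.mul (PM_normSq_ne_zero hx) (PM_normSq_ne_zero hy)]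

theorem val_star {l : ℕ} (x : ℍ[ℤ]) : val l (star x) = val l x := by
  unfold val; rw [normSq_star]

theorem val_one (l : ℕ) : val l 1 = 0 := by
  unfold val; simp

/-- the length function -/
noncomputable def rr (l : ℕ) (g : QG) : ℕ := sInf {n | ∃ x : PM, cl x = g ∧ val l x = n}

theorem rr_spec (l : ℕ) (g : QG) : ∃ x : PM, cl x = g ∧ val l x = rr l g := by
  obtain ⟨x, hx⟩ := cl_surj g
  exact Nat.sInf_mem (s := {n | ∃ x : PM, cl x = g ∧ val l x = n}) ⟨_, x, hx, rfl⟩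

theorem rr_le {l : ℕ} {x : PM} : rr l (cl x) ≤ val l x := Nat.sInf_le ⟨x, rfl, rfl⟩

theorem rr_mul (l : ℕ) [Fact l.Prime] (g h : QG) : rr l (g * h) ≤ rr l g + rr l h := by
  obtain ⟨x, rfl, hx⟩ := rr_spec l g
  obtain ⟨y, rfl, hy⟩ := rr_spec l h
  rw [← hx, ← hy, ← cl_mul, ← val_mul x.2 y.2]
  exact rr_le

theorem rr_inv (l : ℕ) (g : QG) : rr l g⁻¹ = rr l g := by
  have h : ∀ g : QG, rr l g⁻¹ ≤ rr l g := by
    intro g
    obtain ⟨x, rfl, hx⟩ := rr_spec l g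
    rw [← hx, cl_inv, ← val_star (x : ℍ[ℤ])]
    exact rr_le
  have h1 := h g
  have h2 := h g⁻¹
  rw [inv_inv] at h2
  omega

theorem rr_one (l : ℕ) : rr l 1 = 0 := by
  have : rr l (cl 1) ≤ val l (1 : PM) := rr_le
  rw [cl_one, Submonoid.coe_one, val_one] at this
  omega

/-- divisibility of a quaternion by an integer -/
def QDvd (m : ℤ) (x : ℍ[ℤ]) : Prop := m ∣ x.re ∧ m ∣ x.imI ∧ m ∣ x.imJ ∧ m ∣ x.imK

theorem qdvd_iff {m : ℤ} {x : ℍ[ℤ]} : QDvd m x ↔ ∃ y : ℍ[ℤ], x = m • y := by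
  constructor
  · rintro ⟨⟨a, ha⟩, ⟨b, hb⟩, ⟨c, hc⟩, ⟨d, hd⟩⟩
    refine ⟨qmk a b c d, ?_⟩
    ext
    · rw [ha, re_smul, smul_eq_mul, qmk_re]
    · rw [hb, imI_smul, smul_eq_mul, qmk_imI]
    · rw [hc, imJ_smul, smul_eq_mul, qmk_imJ]
    · rw [hd, imK_smul, smul_eq_mul, qmk_imK]
  · rintro ⟨y, rfl⟩
    refine ⟨⟨y.re, ?_⟩, ⟨y.imI, ?_⟩, ⟨y.imJ, ?_⟩, ⟨y.imK, ?_⟩⟩ <;> simp

theorem QDvd.mul_left {m : ℤ} {x : ℍ[ℤ]} (h : QDvd m x) (y : ℍ[ℤ]) : QDvd m (y * x) := by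
  obtain ⟨z, rfl⟩ := qdvd_iff.mp h
  exact qdvd_iff.mpr ⟨y * z, by rw [mul_smul_comm]⟩

theorem QDvd.mul_right {m : ℤ} {x : ℍ[ℤ]} (h : QDvd m x) (y : ℍ[ℤ]) : QDvd m (x * y) := by
  obtain ⟨z, rfl⟩ := qdvd_iff.mp h
  exact qdvd_iff.mpr ⟨z * y, by rw [smul_mul_assoc]⟩

theorem QDvd.add {m : ℤ} {x y : ℍ[ℤ]} (h : QDvd m x) (h' : QDvd m y) : QDvd m (x + y) := by
  obtain ⟨z, rfl⟩ := qdvd_iff.mp h
  obtain ⟨w, rfl⟩ := qdvd_iff.mp h'
  exact qdvd_iff.mpr ⟨z + w, by rw [smul_add]⟩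

theorem normSq_smul' (m : ℤ) (x : ℍ[ℤ]) : normSq (m • x) = m ^ 2 * normSq x := by
  rw [normSq_def', normSq_def']
  simp
  ring

/-- a representative not divisible by the prime `l` computes `rr l`. -/
theorem rr_eq_val {l : ℕ} [hl : Fact l.Prime] {x : PM} (hx : ¬ QDvd l (x : ℍ[ℤ])) :
    rr l (cl x) = val l x := by
  apply le_antisymm rr_le
  obtain ⟨y, hy, hyv⟩ := rr_spec l (cl x)
  rw [← hyv]
  obtain ⟨n, m, hn, hm, h⟩ := cl_eq_iff.mp hy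
  -- n • y = m • x
  have hN : n ^ 2 * normSq (y : ℍ[ℤ]) = m ^ 2 * normSq (x : ℍ[ℤ]) := by
    rw [← normSq_smul', ← normSq_smul', h]
  have hv : 2 * padicValInt l n + val l y = 2 * padicValInt l m + val l x := by
    have := congrArg (padicValInt l) hN
    rw [padicValInt.mul (pow_ne_zero 2 hn) (PM_normSq_ne_zero y.2),
      padicValInt.mul (pow_ne_zero 2 hm) (PM_normSq_ne_zero x.2), sq, sq,
      padicValInt.mul hn hn, padicValInt.mul hm hm] at this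
    unfold val
    omega
  have hcoord : ∀ a b : ℤ, n * b = m * a → ¬ (l : ℤ) ∣ a → padicValInt l n ≤ padicValInt l m := by
    intro a b hab ha
    have ha0 : a ≠ 0 := by
      rintro rfl
      exact ha (dvd_zero _)
    have hb0 : b ≠ 0 := by
      rintro rfl
      rw [mul_zero] at hab
      exact mul_ne_zero hm ha0 hab.symm
    have h1 := congrArg (padicValInt l) hab
    rw [padicValInt.mul hn hb0, padicValInt.mul hm ha0, padicValInt.eq_zero_of_not_dvd ha] at h1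
    omega
  have hle : padicValInt l n ≤ padicValInt l m := by
    have h1 := congrArg (·.re) h
    have h2 := congrArg (·.imI) h
    have h3 := congrArg (·.imJ) h
    have h4 := congrArg (·.imK) h
    simp only [re_smul, imI_smul, imJ_smul, imK_smul, smul_eq_mul] at h1 h2 h3 h4
    unfold QDvd at hx
    by_cases c1 : (l : ℤ) ∣ (x : ℍ[ℤ]).re
    · by_cases c2 : (l : ℤ) ∣ (x : ℍ[ℤ]).imI
      · by_cases c3 : (l : ℤ) ∣ (x : ℍ[ℤ]).imJ
        · by_cases c4 : (l : ℤ) ∣ (x : ℍ[ℤ]).imK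
          · exact absurd ⟨c1, c2, c3, c4⟩ hx
          · exact hcoord _ _ h4 c4
        · exact hcoord _ _ h3 c3
      · exact hcoord _ _ h2 c2
    · exact hcoord _ _ h1 c1
  omega

theorem Ev_of_smul {l : ℤ} (hl : ¬ (2 : ℤ) ∣ l) {y : ℍ[ℤ]} (h : Ev (l • y)) : Ev y := by
  have hp : Prime (2 : ℤ) := Int.prime_two
  obtain ⟨h1, h2, h3⟩ := h
  rw [imI_smul, smul_eq_mul] at h1
  rw [imJ_smul, smul_eq_mul] at h2
  rw [imK_smul, smul_eq_mul] at h3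
  exact ⟨(hp.dvd_or_dvd h1).resolve_left hl, (hp.dvd_or_dvd h2).resolve_left hl,
    (hp.dvd_or_dvd h3).resolve_left hl⟩

/-- representatives primitive at 5 and 13 exist -/
theorem exists_prim (g : QG) :
    ∃ x : PM, cl x = g ∧ ¬ QDvd 5 (x : ℍ[ℤ]) ∧ ¬ QDvd 13 (x : ℍ[ℤ]) := by
  obtain ⟨x, rfl⟩ := cl_surj g
  obtain ⟨n, hn⟩ : ∃ n : ℕ, (normSq (x : ℍ[ℤ])).natAbs = n := ⟨_, rfl⟩
  induction n using Nat.strong_induction_on generalizing x with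
  | _ n ih =>
    by_cases h : ∃ l : ℤ, (l = 5 ∨ l = 13) ∧ QDvd l (x : ℍ[ℤ])
    · obtain ⟨l, hl, hd⟩ := h
      obtain ⟨y, hy⟩ := qdvd_iff.mp hd
      have hl0 : l ≠ 0 := by rcases hl with rfl | rfl <;> norm_num
      have hN : normSq (x : ℍ[ℤ]) = l ^ 2 * normSq y := by rw [hy, normSq_smul']
      have hlodd : ¬ (2 : ℤ) ∣ l := by rcases hl with rfl | rfl <;> norm_num
      have hyP : y ∈ PM := PM_of_dvd x.2 (hN ▸ Dvd.intro_left _ rfl)
        (Ev_of_smul hlodd (hy ▸ x.2.2))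
      have hcl : cl ⟨y, hyP⟩ = cl x := by
        rw [cl_eq_iff]
        exact ⟨l, 1, hl0, one_ne_zero, by rw [one_smul]; exact hy.symm⟩
      have hy0 := PM_normSq_ne_zero hyP
      have hlt : (normSq y).natAbs < n := by
        rw [← hn, hN, Int.natAbs_mul]
        have h1 : 0 < (normSq y).natAbs := Int.natAbs_pos.mpr hy0
        have h2 : 25 ≤ (l ^ 2).natAbs := by rcases hl with rfl | rfl <;> norm_num
        nlinarith
      obtain ⟨z, hz, hz5, hz13⟩ := ih _ hlt ⟨y, hyP⟩ rfl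
      exact ⟨z, hz.trans hcl, hz5, hz13⟩
    · push Not at h
      exact ⟨x, rfl, h 5 (Or.inl rfl), h 13 (Or.inr rfl)⟩

end Pool.Agent.KS6_39.HM
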