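import Mathlib
import Pool.Agent.KS6_39.HM.Metric

/-!
# A malnormal infinite cyclic subgroup

`b` is the class of `1 + 2i + 2j + 2k`. The elements commuting with a power of `b` form the
infinite cyclic group generated by `b`; the group has no torsion.
-/

set_option autoImplicit false

namespace Pool.Agent.KS6_39.HM

open Quaternion Pool.Agent.KS6_39.HM.HHGDefs

/-! ### No torsion -/

/-- the powers of a quaternion -/
theorem pow_coords (x : ℍ[ℤ]) (hE : Ev x) (hr : ¬ (2 : ℤ) ∣ x.re) (n : ℕ) :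
    ∃ a c : ℤ, (x ^ n).re = a ∧ (x ^ n).imI = c * x.imI ∧ (x ^ n).imJ = c * x.imJ ∧
      (x ^ n).imK = c * x.imK ∧ ¬ (2 : ℤ) ∣ a ∧ (2 : ℤ) ∣ c - n := by
  induction n with
  | zero => exact ⟨1, 0, by simp, by simp, by simp, by simp, by norm_num, by simp⟩
  | succ n ih =>
    obtain ⟨a, c, h1, h2, h3, h4, h5, h6⟩ := ih
    obtain ⟨⟨d, hd⟩, ⟨e, he⟩, ⟨f, hf⟩⟩ := hE
    refine ⟨a * x.re - c * (x.imI ^ 2 + x.imJ ^ 2 + x.imK ^ 2), a + c * x.re, ?_, ?_, ?_, ?_, ?_,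
      ?_⟩
    · rw [pow_succ, re_mul, h1, h2, h3, h4]; ring
    · rw [pow_succ, imI_mul, h1, h2, h3, h4]; ring
    · rw [pow_succ, imJ_mul, h1, h2, h3, h4]; ring
    · rw [pow_succ, imK_mul, h1, h2, h3, h4]; ring
    · rintro ⟨t, ht⟩
      have h7 : (2 : ℤ) ∣ a * x.re := by
        refine ⟨t + c * (x.imI * d + x.imJ * e + x.imK * f), ?_⟩
        have h8 : c * (x.imI ^ 2 + x.imJ ^ 2 + x.imK ^ 2) =
            2 * (c * (x.imI * d + x.imJ * e + x.imK * f)) := by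
          rw [hd, he, hf]; ring
        linarith
      rcases Int.prime_two.dvd_or_dvd h7 with h | h
      · exact h5 h
      · exact hr h
    · push_cast
      obtain ⟨u, hu⟩ := h6
      have ha : a % 2 = 1 := by omega
      have hx : x.re % 2 = 1 := by omega
      obtain ⟨v, hv⟩ : ∃ v, x.re = 2 * v + 1 := ⟨x.re / 2, by omega⟩
      obtain ⟨w, hw⟩ : ∃ w, a = 2 * w + 1 := ⟨a / 2, by omega⟩
      refine ⟨w + c * v + u, ?_⟩
      rw [hv, hw]
      linear_combination hu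

theorem cl_pow (x : PM) (n : ℕ) : cl (x ^ n) = (cl x) ^ n := by
  induction n with
  | zero => rw [pow_zero, pow_zero, cl_one]
  | succ n ih => rw [pow_succ, pow_succ, cl_mul, ih]

theorem pow_odd_ne_one {g : QG} (hg : g ≠ 1) {n : ℕ} (hn : ¬ 2 ∣ n) : g ^ n ≠ 1 := by
  obtain ⟨x, rfl⟩ := cl_surj g
  intro h
  apply hg
  rw [← cl_pow] at h
  obtain ⟨s1, s2, s3⟩ := scalar_of_cl_eq_one h
  rw [SubmonoidClass.coe_pow] at s1 s2 s3
  obtain ⟨a, c, h1, h2, h3, h4, h5, h6⟩ := pow_coords (x : ℍ[ℤ]) x.2.2 (re_odd x.2) n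
  have hc : c ≠ 0 := by
    rintro rfl
    apply hn
    have : (2 : ℤ) ∣ (n : ℤ) := by
      obtain ⟨u, hu⟩ := h6
      exact ⟨-u, by linarith⟩
    exact_mod_cast this
  rw [h2] at s1
  rw [h3] at s2
  rw [h4] at s3
  exact cl_eq_one_of_scalar ((mul_eq_zero.mp s1).resolve_left hc)
    ((mul_eq_zero.mp s2).resolve_left hc) ((mul_eq_zero.mp s3).resolve_left hc)

theorem sq_ne_one {g : QG} (hg : g ≠ 1) : g * g ≠ 1 := by
  obtain ⟨x, rfl⟩ := cl_surj g
  intro h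
  apply hg
  rw [← cl_mul] at h
  obtain ⟨s1, s2, s3⟩ := scalar_of_cl_eq_one h
  rw [Submonoid.coe_mul, imI_mul] at s1
  rw [Submonoid.coe_mul, imJ_mul] at s2
  rw [Submonoid.coe_mul, imK_mul] at s3
  have h0 := re_ne_zero x.2
  have t1 : (x : ℍ[ℤ]).re * (x : ℍ[ℤ]).imI = 0 := by linarith
  have t2 : (x : ℍ[ℤ]).re * (x : ℍ[ℤ]).imJ = 0 := by linarith
  have t3 : (x : ℍ[ℤ]).re * (x : ℍ[ℤ]).imK = 0 := by linarith
  exact cl_eq_one_of_scalar ((mul_eq_zero.mp t1).resolve_left h0)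
    ((mul_eq_zero.mp t2).resolve_left h0) ((mul_eq_zero.mp t3).resolve_left h0)

/-- The group is torsion-free. -/
theorem torsion_free (n : ℕ) : ∀ g : QG, g ≠ 1 → 0 < n → g ^ n ≠ 1 := by
  induction n using Nat.strong_induction_on with
  | _ n ih =>
    intro g hg hn
    by_cases h2 : 2 ∣ n
    · obtain ⟨m, rfl⟩ := h2
      rw [pow_mul, sq]
      exact ih m (by omega) (g * g) (sq_ne_one hg) (by omega)
    · exact pow_odd_ne_one hg h2

/-! ### The cyclic subgroup -/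

/-- commuting with `i + j + k` -/
def inK (x : ℍ[ℤ]) : Prop := x.imI = x.imJ ∧ x.imJ = x.imK

theorem K_mul_K {x y : ℍ[ℤ]} (hx : inK x) (hy : inK y) : inK (x * y) := by
  obtain ⟨h1, h2⟩ := hx
  obtain ⟨h3, h4⟩ := hy
  constructor
  · rw [imI_mul, imJ_mul, h1, h2, h3, h4]; ring
  · rw [imJ_mul, imK_mul, h1, h2, h3, h4]; ring

theorem K_star {x : ℍ[ℤ]} (hx : inK x) : inK (star x) := by
  obtain ⟨h1, h2⟩ := hx
  constructor
  · rw [imI_star, imJ_star, h1]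
  · rw [imJ_star, imK_star, h2]

/-- the subgroup of the classes commuting with `i + j + k` -/
def HH : Subgroup QG where
  carrier := {g | ∃ x : PM, cl x = g ∧ inK (x : ℍ[ℤ])}
  one_mem' := ⟨1, cl_one, rfl, rfl⟩
  mul_mem' := by
    rintro g h ⟨x, rfl, hx⟩ ⟨y, rfl, hy⟩
    exact ⟨x * y, cl_mul x y, K_mul_K hx hy⟩
  inv_mem' := by
    rintro g ⟨x, rfl, hx⟩
    exact ⟨starP x, (cl_inv x).symm, K_star hx⟩

theorem trace_eq {m n : ℤ} {w y z : ℍ[ℤ]} (hy : normSq y ≠ 0)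
    (h : m • (w * y) = n • (y * z)) : m * w.re = n * z.re := by
  have h1 := congrArg (·.re) h
  have h2 := congrArg (·.imI) h
  have h3 := congrArg (·.imJ) h
  have h4 := congrArg (·.imK) h
  simp only [re_smul, imI_smul, imJ_smul, imK_smul, smul_eq_mul, re_mul, imI_mul, imJ_mul,
    imK_mul] at h1 h2 h3 h4
  apply mul_right_cancel₀ hy
  rw [normSq_def']
  linear_combination y.re * h1 + y.imI * h2 + y.imJ * h3 + y.imK * h4

theorem comm_cases {m n : ℤ} (hn : n ≠ 0) {w y z : ℍ[ℤ]} (hy : normSq y ≠ 0) (hr : y.re ≠ 0)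
    (h : m • (w * y) = n • (y * z)) (hw : inK w) (hz : inK z) (hz0 : z.imI ≠ 0) :
    inK y := by
  have ht := trace_eq hy h
  obtain ⟨w1, w2⟩ := hw
  obtain ⟨z1, z2⟩ := hz
  have h1 := congrArg (·.re) h
  have h2 := congrArg (·.imI) h
  have h3 := congrArg (·.imJ) h
  have h4 := congrArg (·.imK) h
  simp only [re_smul, imI_smul, imJ_smul, imK_smul, smul_eq_mul, re_mul, imI_mul, imJ_mul,
    imK_mul, ← w2, ← w1, ← z2, ← z1] at h1 h2 h3 h4
  set P := m * w.imI with hP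
  set Q := n * z.imI with hQ
  have hQ0 : Q ≠ 0 := mul_ne_zero hn hz0
  have e2 : P * (y.re + y.imK - y.imJ) = Q * (y.re + y.imJ - y.imK) := by
    rw [hP, hQ]; linear_combination h2 - y.imI * ht
  have e3 : P * (y.re + y.imI - y.imK) = Q * (y.re + y.imK - y.imI) := by
    rw [hP, hQ]; linear_combination h3 - y.imJ * ht
  have e4 : P * (y.re + y.imJ - y.imI) = Q * (y.re + y.imI - y.imJ) := by
    rw [hP, hQ]; linear_combination h4 - y.imK * ht
  have e5 : (P - Q) * y.re = 0 := by linarith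
  have hPQ : P = Q := by
    rcases mul_eq_zero.mp e5 with h | h
    · linarith
    · exact absurd h hr
  rw [hPQ] at e2 e3 e4
  have f2 := mul_left_cancel₀ hQ0 e2
  have f3 := mul_left_cancel₀ hQ0 e3
  have f4 := mul_left_cancel₀ hQ0 e4
  exact ⟨by linarith, by linarith⟩

theorem conj_cases {g h : QG} (hg : g ∉ HH) (hh : h ∈ HH) (hx : g * h * g⁻¹ ∈ HH) :
    h = 1 := by
  obtain ⟨y, rfl⟩ := cl_surj g
  obtain ⟨z, rfl, hz⟩ := hh
  obtain ⟨w, hw1, hw⟩ := hx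
  have hcl : cl (w * y) = cl (y * z) := by
    rw [cl_mul, cl_mul, hw1]; group
  obtain ⟨m, n, hm, hn, he⟩ := cl_eq_iff.mp hcl
  rw [Submonoid.coe_mul, Submonoid.coe_mul] at he
  by_cases hz0 : (z : ℍ[ℤ]).imI = 0
  · obtain ⟨z1, z2⟩ := hz
    exact cl_eq_one_of_scalar hz0 (z1 ▸ hz0) (z2 ▸ z1 ▸ hz0)
  · exfalso
    apply hg
    exact ⟨y, rfl, comm_cases hn (PM_normSq_ne_zero y.2) (re_ne_zero y.2) he hw hz hz0⟩

/-- the generator of `HH` -/
def bP : PM := ⟨qmk 1 2 2 2, ⟨1, by rw [normSq_def']; simp [qmk]⟩,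
  ⟨1, rfl⟩, ⟨1, rfl⟩, ⟨1, rfl⟩⟩

theorem five_dvd {u v : ℤ} (h : (5 : ℤ) ∣ u ^ 2 + 3 * v ^ 2) : (5 : ℤ) ∣ u ∧ (5 : ℤ) ∣ v := by
  have key : ∀ a b : ZMod 5, a ^ 2 + 3 * b ^ 2 = 0 → a = 0 ∧ b = 0 := by decide
  have h1 := (ZMod.intCast_zmod_eq_zero_iff_dvd _ 5).mpr h
  push_cast at h1
  obtain ⟨h2, h3⟩ := key _ _ h1
  exact ⟨(ZMod.intCast_zmod_eq_zero_iff_dvd _ 5).mp h2, (ZMod.intCast_zmod_eq_zero_iff_dvd _ 5).mp h3⟩

theorem thirteen_dvd {u v : ℤ} (h : (13 : ℤ) ∣ u ^ 2 + 3 * v ^ 2) :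
    (13 : ℤ) ∣ u + 6 * v ∨ (13 : ℤ) ∣ u - 6 * v := by
  have key : ∀ a b : ZMod 13, a ^ 2 + 3 * b ^ 2 = 0 → a + 6 * b = 0 ∨ a - 6 * b = 0 := by decide
  have h1 := (ZMod.intCast_zmod_eq_zero_iff_dvd _ 13).mpr h
  push_cast at h1
  rcases key _ _ h1 with h2 | h2
  · left
    apply (ZMod.intCast_zmod_eq_zero_iff_dvd _ 13).mp
    push_cast
    exact h2
  · right
    apply (ZMod.intCast_zmod_eq_zero_iff_dvd _ 13).mp
    push_cast
    exact h2

theorem norm_cases {x : ℍ[ℤ]} (hx : x ∈ PM) :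
    normSq x = 1 ∨ (13 : ℤ) ∣ normSq x ∨ (5 : ℤ) ∣ normSq x := by
  by_cases h3 : val 13 x = 0
  · by_cases h5 : val 5 x = 0
    · exact Or.inl (normSq_eq_one_of_val hx h5 h3)
    · right; right
      by_contra hcon
      exact h5 (padicValInt.eq_zero_of_not_dvd hcon)
  · right; left
    by_contra hcon
    exact h3 (padicValInt.eq_zero_of_not_dvd hcon)

theorem K_mem (n : ℕ) : ∀ x : PM, inK (x : ℍ[ℤ]) → (normSq (x : ℍ[ℤ])).natAbs = n →
    cl x ∈ Subgroup.zpowers (cl bP) := by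
  induction n using Nat.strong_induction_on with
  | _ n ih =>
    intro x hx hn
    obtain ⟨hx1, hx2⟩ := hx
    have hN : normSq (x : ℍ[ℤ]) = (x : ℍ[ℤ]).re ^ 2 + 3 * (x : ℍ[ℤ]).imI ^ 2 := by
      rw [normSq_def', ← hx2, ← hx1]; ring
    have hx0 := PM_normSq_ne_zero x.2
    have hb : cl bP ∈ Subgroup.zpowers (cl bP) := Subgroup.mem_zpowers _
    obtain ⟨e0, hev, -⟩ := x.2.2
    rcases norm_cases x.2 with h1 | h3 | h5
    · rw [cl_eq_one_of_norm h1]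
      exact Subgroup.one_mem _
    · -- divisible by thirteen
      rw [hN] at h3
      rcases thirteen_dvd h3 with h | h
      · -- x = y * (1 + 2 ν)
        obtain ⟨t, ht⟩ := h
        have hxy : (x : ℍ[ℤ]) = qmk t ((x : ℍ[ℤ]).imI - 2 * t) ((x : ℍ[ℤ]).imI - 2 * t)
            ((x : ℍ[ℤ]).imI - 2 * t) * qmk 1 2 2 2 := by
          ext
          · rw [re_mul]; simp; linarith
          · rw [imI_mul]; simp; ring
          · rw [imJ_mul]; simp; linarith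
          · rw [imK_mul]; simp; linarith
        have hNy : normSq (x : ℍ[ℤ]) = normSq (qmk t ((x : ℍ[ℤ]).imI - 2 * t)
            ((x : ℍ[ℤ]).imI - 2 * t) ((x : ℍ[ℤ]).imI - 2 * t)) * 13 := by
          conv_lhs => rw [hxy, map_mul]
          congr 1
        have hd : (2 : ℤ) ∣ (x : ℍ[ℤ]).imI - 2 * t := by
          rw [hx1]
          exact dvd_sub hev ⟨t, rfl⟩
        have hyP : qmk t ((x : ℍ[ℤ]).imI - 2 * t) ((x : ℍ[ℤ]).imI - 2 * t)
            ((x : ℍ[ℤ]).imI - 2 * t) ∈ PM :=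
          PM_of_dvd x.2 (hNy ▸ Dvd.intro _ rfl) ⟨hd, hd, hd⟩
        have hcl : cl x = cl ⟨_, hyP⟩ * cl bP := by
          rw [← cl_mul]
          congr 1
          exact Subtype.ext hxy
        rw [hcl]
        refine Subgroup.mul_mem _ (ih _ ?_ ⟨_, hyP⟩ ⟨rfl, rfl⟩ rfl) hb
        rw [← hn, hNy, Int.natAbs_mul]
        have := Int.natAbs_pos.mpr (PM_normSq_ne_zero hyP)
        have e3 : (13 : ℤ).natAbs = 13 := rfl
        rw [e3]
        show (normSq (qmk t ((x : ℍ[ℤ]).imI - 2 * t) ((x : ℍ[ℤ]).imI - 2 * t)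
          ((x : ℍ[ℤ]).imI - 2 * t))).natAbs < _
        omega
      · -- x = y * (1 - 2 ν)
        obtain ⟨t, ht⟩ := h
        have hxy : (x : ℍ[ℤ]) = qmk t ((x : ℍ[ℤ]).imI + 2 * t) ((x : ℍ[ℤ]).imI + 2 * t)
            ((x : ℍ[ℤ]).imI + 2 * t) * qmk 1 (-2) (-2) (-2) := by
          ext
          · rw [re_mul]; simp; linarith
          · rw [imI_mul]; simp; ring
          · rw [imJ_mul]; simp; linarith
          · rw [imK_mul]; simp; linarith
        have hNy : normSq (x : ℍ[ℤ]) = normSq (qmk t ((x : ℍ[ℤ]).imI + 2 * t)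
            ((x : ℍ[ℤ]).imI + 2 * t) ((x : ℍ[ℤ]).imI + 2 * t)) * 13 := by
          conv_lhs => rw [hxy, map_mul]
          congr 1
        have hd : (2 : ℤ) ∣ (x : ℍ[ℤ]).imI + 2 * t := by
          rw [hx1]
          exact dvd_add hev ⟨t, rfl⟩
        have hyP : qmk t ((x : ℍ[ℤ]).imI + 2 * t) ((x : ℍ[ℤ]).imI + 2 * t)
            ((x : ℍ[ℤ]).imI + 2 * t) ∈ PM :=
          PM_of_dvd x.2 (hNy ▸ Dvd.intro _ rfl) ⟨hd, hd, hd⟩
        have hcl : cl x = cl ⟨_, hyP⟩ * (cl bP)⁻¹ := by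
          rw [cl_inv, ← cl_mul]
          congr 1
          apply Subtype.ext
          conv_lhs => rw [hxy]
          rw [Submonoid.coe_mul]
          congr 1
        rw [hcl]
        refine Subgroup.mul_mem _ (ih _ ?_ ⟨_, hyP⟩ ⟨rfl, rfl⟩ rfl) (Subgroup.inv_mem _ hb)
        rw [← hn, hNy, Int.natAbs_mul]
        have := Int.natAbs_pos.mpr (PM_normSq_ne_zero hyP)
        have e3 : (13 : ℤ).natAbs = 13 := rfl
        rw [e3]
        show (normSq (qmk t ((x : ℍ[ℤ]).imI + 2 * t) ((x : ℍ[ℤ]).imI + 2 * t)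
          ((x : ℍ[ℤ]).imI + 2 * t))).natAbs < _
        omega
    · rw [hN] at h5
      obtain ⟨⟨s, hs⟩, ⟨t, ht⟩⟩ := five_dvd h5
      have hxy : (x : ℍ[ℤ]) = (5 : ℤ) • qmk s t t t := by
        ext
        · rw [re_smul, smul_eq_mul]; exact hs
        · rw [imI_smul, smul_eq_mul]; exact ht
        · rw [← hx1, imJ_smul, smul_eq_mul]; exact ht
        · rw [← hx2, ← hx1, imK_smul, smul_eq_mul]; exact ht
      have hNy : normSq (x : ℍ[ℤ]) = 5 ^ 2 * normSq (qmk s t t t) := by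
        rw [hxy, normSq_smul']
      have hyP : qmk s t t t ∈ PM := PM_of_dvd x.2 (hNy ▸ Dvd.intro_left _ rfl)
        (Ev_of_smul (l := 5) (by norm_num) (hxy ▸ x.2.2))
      have hcl : cl x = cl ⟨_, hyP⟩ := by
        rw [cl_eq_iff]
        exact ⟨1, 5, one_ne_zero, by norm_num, by rw [one_smul]; exact hxy⟩
      rw [hcl]
      refine ih _ ?_ ⟨_, hyP⟩ ⟨rfl, rfl⟩ rfl
      rw [← hn, hNy, Int.natAbs_mul]
      have := Int.natAbs_pos.mpr (PM_normSq_ne_zero hyP)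
      have e3 : ((5 : ℤ) ^ 2).natAbs = 25 := by norm_num
      rw [e3]
      show (normSq (qmk s t t t)).natAbs < _
      omega

theorem HH_eq : HH = Subgroup.zpowers (cl bP) := by
  apply le_antisymm
  · rintro g ⟨x, rfl, hx⟩
    exact K_mem _ x hx rfl
  · rw [Subgroup.zpowers_le]
    exact ⟨bP, rfl, rfl, rfl⟩

/-- The subgroup generated by `b` is malnormal. -/
theorem malnormal {g x : QG} (hg : g ∉ Subgroup.zpowers (cl bP))
    (hx : x ∈ Subgroup.zpowers (cl bP)) (hx' : g * x * g⁻¹ ∈ Subgroup.zpowers (cl bP)) :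
    x = 1 := by
  rw [← HH_eq] at hg hx hx'
  exact conj_cases hg hx hx'

/-! ### Displacements -/

theorem bP_norm : normSq (bP : ℍ[ℤ]) = 13 := by
  rw [normSq_def']; simp [bP]

/-- an element of norm five -/
def cP : PM := ⟨qmk 1 2 0 0, ⟨1, by rw [normSq_def']; simp [qmk]⟩,
  ⟨1, rfl⟩, ⟨0, rfl⟩, ⟨0, rfl⟩⟩

theorem cP_norm : normSq (cP : ℍ[ℤ]) = 5 := by
  rw [normSq_def']; simp [cP]

theorem val_pow {l : ℕ} [Fact l.Prime] (x : PM) (n : ℕ) :
    val l ((x ^ n : PM) : ℍ[ℤ]) = n * val l x := by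
  induction n with
  | zero => rw [pow_zero, Submonoid.coe_one, val_one, zero_mul]
  | succ n ih => rw [pow_succ, Submonoid.coe_mul, val_mul (x ^ n).2 x.2, ih]; ring

theorem cP_pow (n : ℕ) : ∃ a b : ℤ, ((cP ^ (n + 1) : PM) : ℍ[ℤ]) = qmk a b 0 0 ∧
    ¬ (5 : ℤ) ∣ a ∧ (5 : ℤ) ∣ b - 2 * a := by
  induction n with
  | zero => exact ⟨1, 2, by rw [zero_add, pow_one]; rfl, by norm_num, by norm_num⟩
  | succ n ih =>
    obtain ⟨a, b, h1, h2, h3⟩ := ih
    refine ⟨a - 2 * b, b + 2 * a, ?_, by omega, by omega⟩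
    rw [pow_succ, Submonoid.coe_mul, h1]
    ext
    · rw [re_mul]; simp [cP]; ring
    · rw [imI_mul]; simp [cP]; ring
    · rw [imJ_mul]; simp [cP]
    · rw [imK_mul]; simp [cP]

theorem bP_pow (n : ℕ) : ∃ a b : ℤ, ((bP ^ (n + 1) : PM) : ℍ[ℤ]) = qmk a b b b ∧
    ¬ (13 : ℤ) ∣ a ∧ (13 : ℤ) ∣ a + 6 * b := by
  induction n with
  | zero => exact ⟨1, 2, by rw [zero_add, pow_one]; rfl, by norm_num, by norm_num⟩
  | succ n ih =>
    obtain ⟨a, b, h1, h2, h3⟩ := ih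
    refine ⟨a - 6 * b, b + 2 * a, ?_, by omega, by omega⟩
    rw [pow_succ, Submonoid.coe_mul, h1]
    ext
    · rw [re_mul]; simp [bP]; ring
    · rw [imI_mul]; simp [bP]; ring
    · rw [imJ_mul]; simp [bP]; ring
    · rw [imK_mul]; simp [bP]; ring

theorem rr_c_pow (n : ℕ) : rr 5 ((cl cP) ^ n) = n := by
  cases n with
  | zero => rw [pow_zero, rr_one]
  | succ n =>
    rw [← cl_pow]
    obtain ⟨a, b, h1, h2, h3⟩ := cP_pow n
    have hd : ¬ QDvd ((5 : ℕ) : ℤ) ((cP ^ (n + 1) : PM) : ℍ[ℤ]) := by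
      intro h
      rw [h1] at h
      exact h2 h.1
    rw [rr_eq_val hd, val_pow, val_eq_one (Or.inl rfl) (by exact_mod_cast cP_norm), mul_one]

theorem rr_b_pow (n : ℕ) : rr 13 ((cl bP) ^ n) = n := by
  cases n with
  | zero => rw [pow_zero, rr_one]
  | succ n =>
    rw [← cl_pow]
    obtain ⟨a, b, h1, h2, h3⟩ := bP_pow n
    have hd : ¬ QDvd ((13 : ℕ) : ℤ) ((bP ^ (n + 1) : PM) : ℍ[ℤ]) := by
      intro h
      rw [h1] at h
      exact h2 h.1
    rw [rr_eq_val hd, val_pow, val_eq_one (Or.inr rfl) (by exact_mod_cast bP_norm), mul_one]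

theorem rr_letter5 {a : PM} (h : normSq (a : ℍ[ℤ]) = 5) : rr 5 (cl a) ≤ 1 ∧ rr 13 (cl a) = 0 := by
  have h3 : rr 5 (cl a) ≤ val 5 a := rr_le
  have h5 : rr 13 (cl a) ≤ val 13 a := rr_le
  have e3 := val_eq_one (l := 5) (Or.inl rfl) (by exact_mod_cast h)
  have e5 := val_of_norm (l := 13) (n := 5) (by exact_mod_cast h) (by norm_num)
  constructor <;> omega

theorem rr_letter13 {a : PM} (h : normSq (a : ℍ[ℤ]) = 13) :
    rr 13 (cl a) ≤ 1 ∧ rr 5 (cl a) = 0 := by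
  have h3 : rr 5 (cl a) ≤ val 5 a := rr_le
  have h5 : rr 13 (cl a) ≤ val 13 a := rr_le
  have e3 := val_of_norm (l := 5) (n := 13) (by exact_mod_cast h) (by norm_num)
  have e5 := val_eq_one (l := 13) (Or.inr rfl) (by exact_mod_cast h)
  constructor <;> omega

theorem rr_pow_zero {l : ℕ} [Fact l.Prime] {g : QG} (h : rr l g = 0) (n : ℕ) :
    rr l (g ^ n) = 0 := by
  induction n with
  | zero => rw [pow_zero, rr_one]
  | succ n ih =>
    have := rr_mul l (g ^ n) g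
    rw [pow_succ]
    omega

theorem rr_zpow_zero {l : ℕ} [Fact l.Prime] {g : QG} (h : rr l g = 0) (n : ℤ) :
    rr l (g ^ n) = 0 := by
  obtain ⟨m, rfl | rfl⟩ := n.eq_nat_or_neg
  · rw [zpow_natCast]; exact rr_pow_zero h m
  · rw [zpow_neg, rr_inv, zpow_natCast]; exact rr_pow_zero h m

/-- The powers of `b` form a geodesic line. -/
theorem wordLen_b_zpow (n : ℤ) : wordLen gens ((cl bP) ^ n) = n.natAbs := by
  rw [wordLen_eq, rr_zpow_zero (rr_letter13 bP_norm).2, zero_add]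
  obtain ⟨m, rfl | rfl⟩ := n.eq_nat_or_neg
  · rw [zpow_natCast, rr_b_pow]; simp
  · rw [zpow_neg, rr_inv, zpow_natCast, rr_b_pow]; simp

end Pool.Agent.KS6_39.HM
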