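import Mathlib
import Pool.Agent.KS6_39.HM.Cyc

/-!
# The strongly quasiconvex subgroups are the trivial one and those of finite index
-/

set_option autoImplicit false

namespace Pool.Agent.KS6_39.HM

open Quaternion Pool.Agent.KS6_39.HM.HHGDefs

/-! ### Word lengths -/

theorem wordLen_one : wordLen gens (1 : QG) = 0 := by
  rw [wordLen_eq, rr_one, rr_one]

theorem wordLen_mul (g h : QG) : wordLen gens (g * h) ≤ wordLen gens g + wordLen gens h := by
  rw [wordLen_eq, wordLen_eq, wordLen_eq]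
  have h1 := rr_mul 5 g h
  have h2 := rr_mul 13 g h
  omega

theorem wordLen_inv (g : QG) : wordLen gens g⁻¹ = wordLen gens g := by
  rw [wordLen_eq, wordLen_eq, rr_inv, rr_inv]

theorem ball_finite (n : ℕ) : {g : QG | wordLen gens g ≤ n}.Finite := by
  induction n with
  | zero =>
    refine (Set.finite_singleton (1 : QG)).subset ?_
    intro g hg
    have hg' : wordLen gens g ≤ 0 := hg
    obtain ⟨L, h1, h2, h3⟩ := exists_gen_list g
    rw [wordLen_eq] at hg'
    have : L.length = 0 := by omega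
    rw [List.length_eq_zero_iff] at this
    rw [this, List.prod_nil] at h3
    exact h3.symm
  | succ n ih =>
    refine (ih.union (gens_finite.image2 (fun a b => a * b) ih)).subset ?_
    intro g hg
    have hg' : wordLen gens g ≤ n + 1 := hg
    obtain ⟨L, h1, h2, h3⟩ := exists_gen_list g
    rw [← wordLen_eq] at h1
    cases L with
    | nil =>
      left
      show wordLen gens g ≤ n
      rw [List.length_nil] at h1
      omega
    | cons a L =>
      right
      refine ⟨a, h2 a (by simp), L.prod, ?_, by rw [List.prod_cons] at h3; exact h3⟩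
      show wordLen gens L.prod ≤ n
      have h4 : wordLen gens L.prod ≤ L.length :=
        Nat.sInf_le ⟨L, rfl, fun x hx => Or.inl (h2 x (by simp [hx])), rfl⟩
      rw [List.length_cons] at h1
      omega

/-! ### The pair of trees, in either order -/

/-- `l` and `l'` are `5` and `13` in some order. -/
def Pr (l l' : ℕ) : Prop := (l = 5 ∧ l' = 13) ∨ (l = 13 ∧ l' = 5)

theorem Pr.symm {l l' : ℕ} (h : Pr l l') : Pr l' l := by
  rcases h with ⟨rfl, rfl⟩ | ⟨rfl, rfl⟩
  · exact Or.inr ⟨rfl, rfl⟩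
  · exact Or.inl ⟨rfl, rfl⟩

theorem Pr.left {l l' : ℕ} (h : Pr l l') : l = 5 ∨ l = 13 := by
  rcases h with ⟨rfl, rfl⟩ | ⟨rfl, rfl⟩
  · exact Or.inl rfl
  · exact Or.inr rfl

theorem Pr.fact {l l' : ℕ} (h : Pr l l') : Fact l.Prime := ⟨prime_of h.left⟩

theorem Pr.len {l l' : ℕ} (h : Pr l l') (g : QG) : wordLen gens g = rr l g + rr l' g := by
  rw [wordLen_eq]
  rcases h with ⟨rfl, rfl⟩ | ⟨rfl, rfl⟩
  · rfl
  · exact add_comm _ _

/-- first the letters moving the `l`-coordinate, then those moving the `l'`-coordinate -/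
theorem Pr.fac {l l' : ℕ} (h : Pr l l') (g : QG) : ∃ L L' : List QG,
    (∀ x ∈ L, wordLen gens x ≤ 1 ∧ rr l' x = 0) ∧ (∀ x ∈ L', wordLen gens x ≤ 1 ∧ rr l x = 0) ∧
    L.length = rr l g ∧ L'.length = rr l' g ∧ g = L.prod * L'.prod := by
  have k5 : ∀ (L : List PM), (∀ a ∈ L, normSq (a : ℍ[ℤ]) = 5) → ∀ x ∈ L.map cl,
      wordLen gens x ≤ 1 ∧ rr 13 x = 0 := by
    intro L hL x hx
    rw [List.mem_map] at hx
    obtain ⟨a, ha, rfl⟩ := hx
    have := rr_letter5 (hL a ha)
    rw [wordLen_eq]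
    exact ⟨by omega, this.2⟩
  have k13 : ∀ (L : List PM), (∀ a ∈ L, normSq (a : ℍ[ℤ]) = 13) → ∀ x ∈ L.map cl,
      wordLen gens x ≤ 1 ∧ rr 5 x = 0 := by
    intro L hL x hx
    rw [List.mem_map] at hx
    obtain ⟨a, ha, rfl⟩ := hx
    have := rr_letter13 (hL a ha)
    rw [wordLen_eq]
    exact ⟨by omega, this.2⟩
  rcases h with ⟨rfl, rfl⟩ | ⟨rfl, rfl⟩
  · obtain ⟨LA, LB, h1, h2, h3, h4, h5⟩ := factorization' g
    exact ⟨LA.map cl, LB.map cl, k5 LA h1, k13 LB h2, by rw [List.length_map, h3],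
      by rw [List.length_map, h4], by rw [← cl_list_prod, ← cl_list_prod]; exact h5⟩
  · obtain ⟨LB, LA, h1, h2, h3, h4, h5⟩ := factorization g
    exact ⟨LB.map cl, LA.map cl, k13 LB h1, k5 LA h2, by rw [List.length_map, h3],
      by rw [List.length_map, h4], by rw [← cl_list_prod, ← cl_list_prod]; exact h5⟩

theorem rr_prod_zero {l : ℕ} [Fact l.Prime] {L : List QG} (h : ∀ x ∈ L, rr l x = 0) :
    rr l L.prod = 0 := by
  induction L with
  | nil => rw [List.prod_nil, rr_one]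
  | cons a L ih =>
    have h1 := rr_mul l a L.prod
    have h2 := h a (by simp)
    have h3 := ih (fun x hx => h x (by simp [hx]))
    rw [List.prod_cons]
    omega

theorem Pr.split {l l' : ℕ} (h : Pr l l') (g : QG) :
    ∃ u v : QG, g = u * v ∧ rr l' u = 0 ∧ rr l v = 0 := by
  have := h.fact
  have := h.symm.fact
  obtain ⟨L, L', h1, h2, h3, h4, h5⟩ := h.fac g
  exact ⟨L.prod, L'.prod, h5, rr_prod_zero (fun x hx => (h1 x hx).2),
    rr_prod_zero (fun x hx => (h2 x hx).2)⟩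

theorem Pr.elt {l l' : ℕ} (h : Pr l l') (n : ℕ) : ∃ z : QG, rr l z = 0 ∧ rr l' z = n := by
  rcases h with ⟨rfl, rfl⟩ | ⟨rfl, rfl⟩
  · exact ⟨(cl bP) ^ n, rr_pow_zero (rr_letter13 bP_norm).2 n, rr_b_pow n⟩
  · exact ⟨(cl cP) ^ n, rr_pow_zero (rr_letter5 cP_norm).2 n, rr_c_pow n⟩

/-! ### Detours -/

theorem tele {N : ℕ} {r : QG → ℕ} (h1 : r 1 = 0) (hm : ∀ g h, r (g * h) ≤ r g + r h)
    (f : ℕ → ℕ) (p : ℕ → QG) (hs : ∀ t < N, r ((p t)⁻¹ * p (t + 1)) + f t ≤ f (t + 1)) :
    ∀ j i, i ≤ j → j ≤ N → r ((p i)⁻¹ * p j) + f i ≤ f j := by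
  intro j
  induction j with
  | zero =>
    intro i hi _
    have : i = 0 := by omega
    subst this
    rw [inv_mul_cancel, h1]; omega
  | succ j ih =>
    intro i hi hj
    by_cases h : i = j + 1
    · subst h
      rw [inv_mul_cancel, h1]; omega
    · have h2 := ih i (by omega) (by omega)
      have h3 := hs j (by omega)
      have h4 := hm ((p i)⁻¹ * p j) ((p j)⁻¹ * p (j + 1))
      rw [show (p i)⁻¹ * p j * ((p j)⁻¹ * p (j + 1)) = (p i)⁻¹ * p (j + 1) by group] at h4
      omega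

/-- The detour: if `z` differs from `1` only in the `l'`-coordinate, by at most the displacement
of `h` in the `l`-coordinate, then there is a `(3, 0)`-quasi-geodesic from `1` to `h` through
`z`. -/
theorem detour {l l' : ℕ} (hP : Pr l l') {z h : QG} (hz : rr l z = 0)
    (hab : rr l' z ≤ rr l h) : ∃ p : ℕ → QG,
      IsQuasiGeodesic gens 3 0 (rr l' z + rr l h + rr l' (z⁻¹ * h)) p ∧ p 0 = 1 ∧
      p (rr l' z) = z ∧ p (rr l' z + rr l h + rr l' (z⁻¹ * h)) = h := by
  have := hP.fact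
  have := hP.symm.fact
  obtain ⟨Z0, LZ, z1, z2, z3, z4, z5⟩ := hP.fac z
  rw [hz, List.length_eq_zero_iff] at z3
  rw [z3, List.prod_nil, one_mul] at z5
  obtain ⟨LA, LB, a1, a2, a3, a4, a5⟩ := hP.fac (z⁻¹ * h)
  have hb : rr l (z⁻¹ * h) = rr l h := by
    have h1 := rr_mul l z⁻¹ h
    have h2 := rr_mul l z (z⁻¹ * h)
    rw [mul_inv_cancel_left] at h2
    rw [rr_inv] at h1
    omega
  rw [hb] at a3
  obtain ⟨a, ha⟩ : ∃ a, a = rr l' z := ⟨_, rfl⟩
  obtain ⟨b, hb'⟩ : ∃ b, b = rr l h := ⟨_, rfl⟩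
  obtain ⟨c, hc⟩ : ∃ c, c = rr l' (z⁻¹ * h) := ⟨_, rfl⟩
  rw [← ha, ← hb', ← hc]
  rw [← ha, ← hb'] at hab
  rw [← ha] at z4
  rw [← hb'] at a3
  rw [← hc] at a4
  set W : List QG := LZ ++ (LA ++ LB) with hW
  have hlen : W.length = a + b + c := by
    rw [hW]
    simp only [List.length_append]
    omega
  have hstep : ∀ t (ht : t < W.length), ((W.take t).prod)⁻¹ * (W.take (t + 1)).prod = W[t] := by
    intro t ht
    rw [List.prod_take_succ _ _ ht, inv_mul_cancel_left]
  have hlet : ∀ t (ht : t < W.length), wordLen gens W[t] ≤ 1 ∧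
      ((t < a ∧ rr l W[t] = 0) ∨ (a ≤ t ∧ t < a + b ∧ rr l' W[t] = 0) ∨
        (a + b ≤ t ∧ rr l W[t] = 0)) := by
    intro t ht
    by_cases c1 : t < a
    · have e : W[t] = LZ[t]'(by omega) := by
        simp only [hW]
        rw [List.getElem_append_left]
      rw [e]
      have := z2 _ (List.getElem_mem (l := LZ) (n := t) (by omega))
      exact ⟨this.1, Or.inl ⟨c1, this.2⟩⟩
    · by_cases c2 : t < a + b
      · have e : W[t] = LA[t - a]'(by omega) := by
          simp only [hW]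
          rw [List.getElem_append_right (by omega), List.getElem_append_left (by omega)]
          simp only [z4]
        rw [e]
        have := a1 _ (List.getElem_mem (l := LA) (n := t - a) (by omega))
        exact ⟨this.1, Or.inr (Or.inl ⟨by omega, c2, this.2⟩)⟩
      · have e : W[t] = LB[t - a - b]'(by omega) := by
          simp only [hW]
          rw [List.getElem_append_right (by omega), List.getElem_append_right (by omega)]
          simp only [z4, a3]
        rw [e]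
        have := a2 _ (List.getElem_mem (l := LB) (n := t - a - b) (by omega))
        exact ⟨this.1, Or.inr (Or.inr ⟨by omega, this.2⟩)⟩
  obtain ⟨p, hp⟩ : ∃ p : ℕ → QG, p = fun t => (W.take t).prod := ⟨_, rfl⟩
  have p0 : p 0 = 1 := by rw [hp]; simp
  have pa : p a = z := by
    rw [hp]
    show (W.take a).prod = z
    have : W.take a = LZ := by
      rw [hW]
      exact List.take_left' z4
    rw [this]; exact z5.symm
  have pN : p (a + b + c) = h := by
    rw [hp]
    show (W.take (a + b + c)).prod = h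
    rw [← hlen, List.take_length, hW, List.prod_append, List.prod_append, ← a5, ← z5,
      mul_inv_cancel_left]
  have hs : ∀ t < a + b + c, wordLen gens ((p t)⁻¹ * p (t + 1)) ≤ 1 ∧
      ((t < a ∧ rr l ((p t)⁻¹ * p (t + 1)) = 0) ∨
        (a ≤ t ∧ t < a + b ∧ rr l' ((p t)⁻¹ * p (t + 1)) = 0) ∨
        (a + b ≤ t ∧ rr l ((p t)⁻¹ * p (t + 1)) = 0)) := by
    intro t ht
    have ht' : t < W.length := by omega
    have e : (p t)⁻¹ * p (t + 1) = W[t] := by rw [hp]; exact hstep t ht'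
    rw [e]
    exact hlet t ht'
  refine ⟨p, ?_, p0, pa, pN⟩
  -- telescoping
  have TW := tele (N := a + b + c) (r := wordLen gens) wordLen_one wordLen_mul (fun t => t) p
    (fun t ht => by have := (hs t ht).1; show _ + t ≤ t + 1; omega)
  have T := tele (N := a + b + c) (r := rr l) (rr_one l) (rr_mul l)
    (fun t => min (t - a) b) p (by
      intro t ht
      obtain ⟨h1, h2⟩ := hs t ht
      rw [hP.len] at h1
      show _ + min (t - a) b ≤ min (t + 1 - a) b
      rcases h2 with ⟨h2, h3⟩ | ⟨h2, h3, h4⟩ | ⟨h2, h3⟩ <;> omega)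
  have T' := tele (N := a + b + c) (r := rr l') (rr_one l') (rr_mul l')
    (fun t => min t a + (t - (a + b))) p (by
      intro t ht
      obtain ⟨h1, h2⟩ := hs t ht
      rw [hP.len] at h1
      show _ + (min t a + (t - (a + b))) ≤ min (t + 1) a + (t + 1 - (a + b))
      rcases h2 with ⟨h2, h3⟩ | ⟨h2, h3, h4⟩ | ⟨h2, h3⟩ <;> omega)
  beta_reduce at TW T T'
  have tri : ∀ q : ℕ, ∀ _ : Fact q.Prime, ∀ x y w : ℕ,
      rr q ((p x)⁻¹ * p w) ≤ rr q ((p x)⁻¹ * p y) + rr q ((p y)⁻¹ * p w) := by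
    intro q hq x y w
    have := rr_mul q ((p x)⁻¹ * p y) ((p y)⁻¹ * p w)
    rwa [show (p x)⁻¹ * p y * ((p y)⁻¹ * p w) = (p x)⁻¹ * p w by group] at this
  have sym : ∀ q : ℕ, ∀ x y : ℕ, rr q ((p x)⁻¹ * p y) = rr q ((p y)⁻¹ * p x) := by
    intro q x y
    rw [← rr_inv, mul_inv_rev, inv_inv]
  have tot : rr l ((p 0)⁻¹ * p (a + b + c)) = b := by
    rw [p0, pN, inv_one, one_mul, hb']
  have tot1 : rr l' ((p 0)⁻¹ * p a) = a := by
    rw [p0, pa, inv_one, one_mul, ha]
  have tot2 : rr l' ((p a)⁻¹ * p (a + b + c)) = c := by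
    rw [pa, pN, hc]
  have f1 : Fact l.Prime := hP.fact
  have f2 : Fact l'.Prime := hP.symm.fact
  have main : ∀ i j, i ≤ j → j ≤ a + b + c →
      j - i ≤ 3 * wordLen gens ((p i)⁻¹ * p j) ∧ wordLen gens ((p i)⁻¹ * p j) ≤ j - i := by
    intro i j hij hj
    have hD := hP.len ((p i)⁻¹ * p j)
    have hWl := TW j i hij hj
    refine ⟨?_, by omega⟩
    have u1 := T i 0 (by omega) (by omega)
    have u2 := T (a + b + c) j (by omega) (by omega)
    have u3 := tri l f1 0 i (a + b + c)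
    have u4 := tri l f1 i j (a + b + c)
    rcases le_total j a with hja | hja
    · have b1 := T' i 0 (by omega) (by omega)
      have b2 := T' a j (by omega) (by omega)
      have b3 := tri l' f2 0 i a
      have b4 := tri l' f2 i j a
      omega
    · rcases le_total i a with hia | hia
      · rcases le_total j (a + b) with hjb | hjb
        · have b1 := T' i 0 (by omega) (by omega)
          have b2 := T' j a (by omega) (by omega)
          have b3 := tri l' f2 0 i a
          have b4 := tri l' f2 i j a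
          rw [sym l' j a] at b4
          omega
        · have b1 := T' i 0 (by omega) (by omega)
          have b2 := T' (a + b + c) j (by omega) (by omega)
          have b3 := tri l' f2 0 i a
          have b5 := tri l' f2 a j (a + b + c)
          have b6 := tri l' f2 a i j
          have b7 := T' a i (by omega) (by omega)
          rw [sym l' i a] at b7
          omega
      · have b1 := T' i a (by omega) (by omega)
        have b2 := T' (a + b + c) j (by omega) (by omega)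
        have b3 := tri l' f2 a i (a + b + c)
        have b4 := tri l' f2 i j (a + b + c)
        omega
  have wsym : ∀ x y : ℕ, wordLen gens ((p x)⁻¹ * p y) = wordLen gens ((p y)⁻¹ * p x) := by
    intro x y
    rw [← wordLen_inv, mul_inv_rev, inv_inv]
  have main2 : ∀ i j, i ≤ j → j ≤ a + b + c →
      ((j : ℝ) - i) / 3 - 0 ≤ (wordLen gens ((p i)⁻¹ * p j) : ℝ) ∧
      (wordLen gens ((p i)⁻¹ * p j) : ℝ) ≤ 3 * ((j : ℝ) - i) + 0 := by
    intro i j hij hj
    obtain ⟨m1, m2⟩ := main i j hij hj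
    have m1' : j ≤ 3 * wordLen gens ((p i)⁻¹ * p j) + i := by omega
    have m2' : wordLen gens ((p i)⁻¹ * p j) + i ≤ j := by omega
    have m1'' : (j : ℝ) ≤ 3 * (wordLen gens ((p i)⁻¹ * p j) : ℝ) + i := by exact_mod_cast m1'
    have m2'' : (wordLen gens ((p i)⁻¹ * p j) : ℝ) + i ≤ j := by exact_mod_cast m2'
    have hij' : (i : ℝ) ≤ j := by exact_mod_cast hij
    constructor <;> linarith
  intro i hi j hj
  rcases le_total i j with h | h
  · have hij' : (i : ℝ) - j ≤ 0 := by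
      have : (i : ℝ) ≤ j := by exact_mod_cast h
      linarith
    rw [abs_of_nonpos hij']
    have := main2 i j h hj
    unfold wordDist
    rw [neg_sub]
    exact this
  · have hij' : 0 ≤ (i : ℝ) - j := by
      have : (j : ℝ) ≤ i := by exact_mod_cast h
      linarith
    rw [abs_of_nonneg hij']
    have := main2 j i h hi
    unfold wordDist
    rw [wsym i j]
    exact this

/-! ### Strongly quasiconvex subgroups -/

/-- The displacements in the `l`-coordinate are unbounded on `H`. -/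
def Unb (l : ℕ) (H : Subgroup QG) : Prop := ∀ n : ℕ, ∃ h ∈ H, n ≤ rr l h

theorem near {l l' : ℕ} (hP : Pr l l') {H : Subgroup QG} {M : ℕ}
    (hM : ∀ (n : ℕ) (p : ℕ → QG), IsQuasiGeodesic gens 3 0 n p → p 0 ∈ H → p n ∈ H →
      ∀ i ≤ n, ∃ h ∈ H, wordDist gens (p i) h ≤ M) (hU : Unb l H) (z : QG) (hz : rr l z = 0) :
    ∃ h ∈ H, wordDist gens z h ≤ M := by
  obtain ⟨h, hh, hle⟩ := hU (rr l' z)
  obtain ⟨p, p1, p2, p3, p4⟩ := detour hP hz hle
  have := hM _ p p1 (by rw [p2]; exact H.one_mem) (by rw [p4]; exact hh) (rr l' z) (by omega)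
  rwa [p3] at this

theorem unb_symm {l l' : ℕ} (hP : Pr l l') {H : Subgroup QG} {M : ℕ}
    (hM : ∀ (n : ℕ) (p : ℕ → QG), IsQuasiGeodesic gens 3 0 n p → p 0 ∈ H → p n ∈ H →
      ∀ i ≤ n, ∃ h ∈ H, wordDist gens (p i) h ≤ M) (hU : Unb l H) : Unb l' H := by
  intro n
  have := hP.symm.fact
  obtain ⟨z, hz, hz'⟩ := hP.elt (n + M)
  obtain ⟨h, hh, hd⟩ := near hP hM hU z hz
  refine ⟨h, hh, ?_⟩
  unfold wordDist at hd
  rw [hP.len] at hd
  have h1 := rr_mul l' h (h⁻¹ * z)
  have h2 : rr l' (h⁻¹ * z) = rr l' (z⁻¹ * h) := by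
    rw [← rr_inv, mul_inv_rev, inv_inv]
  rw [mul_inv_cancel_left] at h1
  omega

theorem near_all {l l' : ℕ} (hP : Pr l l') {H : Subgroup QG} {M : ℕ}
    (hM : ∀ (n : ℕ) (p : ℕ → QG), IsQuasiGeodesic gens 3 0 n p → p 0 ∈ H → p n ∈ H →
      ∀ i ≤ n, ∃ h ∈ H, wordDist gens (p i) h ≤ M) (hU : Unb l H) (g : QG) :
    ∃ h ∈ H, ∃ e : QG, wordLen gens e ≤ 2 * M ∧ g = h * e := by
  have := hP.fact
  have := hP.symm.fact
  have hU' := unb_symm hP hM hU
  -- g = z * v
  obtain ⟨z, v, hg, hz, hv⟩ := hP.symm.split g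
  obtain ⟨h, hh, hd⟩ := near hP hM hU z hz
  unfold wordDist at hd
  have he : wordLen gens (h⁻¹ * z) ≤ M := by
    rw [← wordLen_inv, mul_inv_rev, inv_inv]; exact hd
  -- q = e * v = v' * e'
  obtain ⟨v', e', hq, hv', he'⟩ := hP.split (h⁻¹ * z * v)
  have h1 : rr l' e' ≤ M := by
    have i1 := rr_mul l' v'⁻¹ (h⁻¹ * z * v)
    rw [hq, inv_mul_cancel_left, ← hq, rr_inv, hv'] at i1
    have i2 := rr_mul l' (h⁻¹ * z) v
    rw [hP.len] at he
    omega
  obtain ⟨h', hh', hd'⟩ := near hP.symm hM hU' v' hv'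
  unfold wordDist at hd'
  refine ⟨h * h', H.mul_mem hh hh', h'⁻¹ * v' * e', ?_, ?_⟩
  · have i1 := wordLen_mul (h'⁻¹ * v') e'
    have i2 : wordLen gens (h'⁻¹ * v') ≤ M := by
      rw [← wordLen_inv, mul_inv_rev, inv_inv]; exact hd'
    have i3 : wordLen gens e' ≤ M := by
      rw [hP.len, he']; omega
    omega
  · calc g = h * (h⁻¹ * z * v) := by rw [hg]; group
      _ = h * (v' * e') := by rw [hq]
      _ = h * h' * (h'⁻¹ * v' * e') := by group

theorem finiteIndex_of_near {H : Subgroup QG} {R : ℕ}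
    (h : ∀ g : QG, ∃ h ∈ H, ∃ e : QG, wordLen gens e ≤ R ∧ g = h * e) : H.FiniteIndex := by
  have hfin : Finite {g : QG | wordLen gens g ≤ R} := ball_finite R
  have : Finite (QG ⧸ H) := by
    refine Finite.of_surjective (fun e : {g : QG | wordLen gens g ≤ R} =>
      ((e.1⁻¹ : QG) : QG ⧸ H)) ?_
    intro x
    obtain ⟨g, rfl⟩ := QuotientGroup.mk_surjective x
    obtain ⟨k, hk, e, he, hg⟩ := h g⁻¹
    refine ⟨⟨e, he⟩, ?_⟩
    rw [QuotientGroup.eq]
    show (e⁻¹)⁻¹ * g ∈ H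
    have : g = e⁻¹ * k⁻¹ := by
      rw [← mul_inv_rev, ← hg, inv_inv]
    rw [this, inv_inv, mul_inv_cancel_left]
    exact H.inv_mem hk
  exact Subgroup.finiteIndex_of_finite_quotient

theorem unb_of_ne_bot {H : Subgroup QG} (hH : H ≠ ⊥) : Unb 5 H ∨ Unb 13 H := by
  obtain ⟨g, hg, hg1⟩ : ∃ g : QG, g ∈ H ∧ g ≠ 1 := by
    by_contra hcon
    push Not at hcon
    exact hH ((Subgroup.eq_bot_iff_forall H).mpr hcon)
  by_contra hcon
  rw [not_or] at hcon
  obtain ⟨h5, h13⟩ := hcon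
  unfold Unb at h5 h13
  push Not at h5 h13
  obtain ⟨n, hn⟩ := h5
  obtain ⟨m, hm⟩ := h13
  have hsub : Set.range (fun k : ℕ => g ^ k) ⊆ {x : QG | wordLen gens x ≤ n + m} := by
    rintro _ ⟨k, rfl⟩
    show wordLen gens (g ^ k) ≤ n + m
    have h1 := hn _ (H.pow_mem hg k)
    have h2 := hm _ (H.pow_mem hg k)
    rw [wordLen_eq]
    omega
  have hinj : Function.Injective (fun k : ℕ => g ^ k) := by
    intro i j hij
    have hij' : g ^ i = g ^ j := hij
    by_contra hne
    rcases lt_or_gt_of_ne hne with h | h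
    · refine torsion_free (j - i) g hg1 (by omega) ?_
      rw [pow_sub g h.le, ← hij', mul_inv_cancel]
    · refine torsion_free (i - j) g hg1 (by omega) ?_
      rw [pow_sub g h.le, hij', mul_inv_cancel]
  exact (Set.infinite_range_of_injective hinj) ((ball_finite _).subset hsub)

theorem finiteIndex_of_sqc {H : Subgroup QG} (hS : StronglyQuasiconvex gens H) (hH : H ≠ ⊥) :
    H.FiniteIndex := by
  obtain ⟨M0, hM0⟩ := hS 3 0 (by norm_num) le_rfl
  have hM : ∀ (n : ℕ) (p : ℕ → QG), IsQuasiGeodesic gens 3 0 n p → p 0 ∈ H → p n ∈ H →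
      ∀ i ≤ n, ∃ h ∈ H, wordDist gens (p i) h ≤ ⌊M0⌋₊ := by
    intro n p hp h0 hn i hi
    obtain ⟨h, hh, hd⟩ := hM0 n p hp h0 hn i hi
    exact ⟨h, hh, Nat.le_floor hd⟩
  rcases unb_of_ne_bot hH with h | h
  · exact finiteIndex_of_near (near_all (Or.inl ⟨rfl, rfl⟩) hM h)
  · exact finiteIndex_of_near (near_all (Or.inr ⟨rfl, rfl⟩) hM h)

theorem sqc_bot : StronglyQuasiconvex gens (⊥ : Subgroup QG) := by
  intro K C hK hC
  refine ⟨K * (K * C) + C, ?_⟩
  intro n p hp h0 hn i hi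
  rw [Subgroup.mem_bot] at h0 hn
  refine ⟨1, Subgroup.one_mem _, ?_⟩
  have h1 := (hp 0 (Nat.zero_le _) n le_rfl).1
  have h2 := (hp i hi 0 (Nat.zero_le _)).2
  rw [h0] at h2
  unfold wordDist at h1 h2 ⊢
  rw [h0, hn, inv_one, one_mul, wordLen_one] at h1
  have hK0 : 0 < K := by linarith
  have hn0 : (0 : ℝ) ≤ n := Nat.cast_nonneg n
  have hi0 : (0 : ℝ) ≤ i := Nat.cast_nonneg i
  have e1 : |((0 : ℕ) : ℝ) - (n : ℝ)| = n := by
    rw [Nat.cast_zero, zero_sub, abs_neg, abs_of_nonneg hn0]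
  have e2 : |(i : ℝ) - ((0 : ℕ) : ℝ)| = i := by
    rw [Nat.cast_zero, sub_zero, abs_of_nonneg hi0]
  rw [e1] at h1
  rw [e2] at h2
  have h3 : (n : ℝ) / K ≤ C := by push_cast at h1; linarith
  have h4 : (n : ℝ) ≤ K * C := by
    rw [div_le_iff₀ hK0] at h3; linarith
  have h5 : (i : ℝ) ≤ n := by exact_mod_cast hi
  have h6 : K * (i : ℝ) ≤ K * (K * C) := by
    apply mul_le_mul_of_nonneg_left _ hK0.le
    linarith
  linarith

theorem sqc_of_finiteIndex {H : Subgroup QG} (hH : H.FiniteIndex) :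
    StronglyQuasiconvex gens H := by
  classical
  have hq : Finite (QG ⧸ H) := inferInstance
  have := Fintype.ofFinite (QG ⧸ H)
  let M : ℕ := Finset.univ.sup (fun x : QG ⧸ H => wordLen gens x.out)
  intro K C hK hC
  refine ⟨M, ?_⟩
  intro n p _ _ _ i _
  -- the coset of (p i)⁻¹
  obtain ⟨r, hr⟩ : ∃ r : QG, r = (((p i)⁻¹ : QG) : QG ⧸ H).out := ⟨_, rfl⟩
  have h1 : r⁻¹ * (p i)⁻¹ ∈ H := by
    rw [← QuotientGroup.eq, hr]
    exact QuotientGroup.out_eq' _
  refine ⟨(r⁻¹ * (p i)⁻¹)⁻¹, H.inv_mem h1, ?_⟩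
  unfold wordDist
  have h2 : (p i)⁻¹ * (r⁻¹ * (p i)⁻¹)⁻¹ = r := by group
  rw [h2, hr]
  have : wordLen gens ((((p i)⁻¹ : QG) : QG ⧸ H).out) ≤ M :=
    Finset.le_sup (f := fun x : QG ⧸ H => wordLen gens x.out) (Finset.mem_univ _)
  exact_mod_cast this

/-- **The strongly quasiconvex subgroups** are the trivial subgroup and the subgroups of finite
index. -/
theorem sqc_iff (H : Subgroup QG) :
    StronglyQuasiconvex gens H ↔ H = ⊥ ∨ H.FiniteIndex := by
  constructor
  · intro h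
    by_cases hH : H = ⊥
    · exact Or.inl hH
    · exact Or.inr (finiteIndex_of_sqc h hH)
  · rintro (rfl | h)
    · exact sqc_bot
    · exact sqc_of_finiteIndex h

end Pool.Agent.KS6_39.HM
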